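import Mathlib
import Pool.Graph.R_seed8.Q281.Chrom.Sym

set_option autoImplicit false
set_option linter.unusedSectionVars false

/-!
# Monotonicity of the symmetric decomposition of the chromatic numerator polynomial
-/

namespace Pool.Agent.KS6_50.CH

open Finset Pool.Agent.Q281.Chrom

variable {V : Type} [Fintype V] [DecidableEq V]

/-- the second difference of partial sums -/
noncomputable def BB (G : SimpleGraph V) (i : ℕ) : ℤ :=
  ∑ j ∈ range (i + 1), hc G (Fintype.card V - j) - ∑ j ∈ range (i + 1), hc G j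

theorem BB_del (G : SimpleGraph V) (u v : V) (huv : G.Adj u v) (i : ℕ)
    (hi : i + 1 ≤ Fintype.card V) :
    BB G i = BB (G.deleteEdges {s(u, v)}) i + hc (contr G u v) (Fintype.card V - 1 - i) +
      hc (contr G u v) i := by
  have hpos : 0 < Fintype.card {x : V // x ≠ v} := Fintype.card_pos_iff.2 ⟨⟨u, huv.ne⟩⟩
  have hz : hc (contr G u v) (Fintype.card V) = 0 := by
    apply coeff_hs_zero_of_lt _ hpos
    have := card_contr v
    omega
  have h1 : Fintype.card V - (i + 1) = Fintype.card V - 1 - i := by omega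
  rw [BB, BB, low_sum G u v huv, high_sum G u v huv (i + 1) hi, hz, h1]
  ring

theorem hc_nonneg (G : SimpleGraph V) (hV : 0 < Fintype.card V) (i : ℕ) : 0 ≤ hc G i :=
  coeff_hs_nonneg G hV i

/-- deleting an edge gives a smaller graph -/
theorem del_lt {G : SimpleGraph V} {u v : V} (huv : G.Adj u v) :
    G.deleteEdges {s(u, v)} < G := by
  refine lt_of_le_of_ne (SimpleGraph.deleteEdges_le _) fun h => ?_
  have h1 : (G.deleteEdges {s(u, v)}).Adj u v := by rw [h]; exact huv
  rw [SimpleGraph.deleteEdges_adj] at h1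
  exact h1.2 rfl

/-- every quantity that grows with every additional edge is monotone -/
theorem mono_of_del (F : SimpleGraph V → ℤ)
    (hF : ∀ (G : SimpleGraph V) (u v : V), G.Adj u v → F (G.deleteEdges {s(u, v)}) ≤ F G)
    {G G' : SimpleGraph V} (h : G ≤ G') : F G ≤ F G' := by
  induction G' using WellFoundedLT.induction with
  | ind G' ih =>
    by_cases hG : G = G'
    · rw [hG]
    · obtain ⟨u, v, h1, h2⟩ : ∃ u v, G'.Adj u v ∧ ¬ G.Adj u v := by
        by_contra hcon
        push Not at hcon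
        exact hG (le_antisymm h fun u v huv => hcon u v huv)
      refine (ih _ (del_lt h1) ?_).trans (hF G' u v h1)
      intro x y hxy
      rw [SimpleGraph.deleteEdges_adj]
      refine ⟨h hxy, fun hmem => ?_⟩
      rw [Set.mem_singleton_iff, Sym2.eq_iff] at hmem
      rcases hmem with ⟨rfl, rfl⟩ | ⟨rfl, rfl⟩
      · exact h2 hxy
      · exact h2 hxy.symm

theorem SS_mono (i : ℕ) (hi : i ≤ Fintype.card V) {G G' : SimpleGraph V} (h : G ≤ G') :
    SS G i ≤ SS G' i := by
  refine mono_of_del (fun G => SS G i) (fun G u v huv => ?_) h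
  have hpos : 0 < Fintype.card {x : V // x ≠ v} := Fintype.card_pos_iff.2 ⟨⟨u, huv.ne⟩⟩
  have h1 := SS_del G u v huv i hi
  have h2 := hc_nonneg (contr G u v) hpos (Fintype.card V - i)
  have h3 := hc_nonneg (contr G u v) hpos i
  linarith

theorem BB_mono (i : ℕ) (hi : i + 1 ≤ Fintype.card V) {G G' : SimpleGraph V} (h : G ≤ G') :
    BB G i ≤ BB G' i := by
  refine mono_of_del (fun G => BB G i) (fun G u v huv => ?_) h
  have hpos : 0 < Fintype.card {x : V // x ≠ v} := Fintype.card_pos_iff.2 ⟨⟨u, huv.ne⟩⟩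
  have h1 := BB_del G u v huv i hi
  have h2 := hc_nonneg (contr G u v) hpos (Fintype.card V - 1 - i)
  have h3 := hc_nonneg (contr G u v) hpos i
  linarith

/-! ### The edgeless graph -/

theorem eul_zero : eul 0 = 1 := by
  rw [eul]
  have h := PowerSeries.mk_one_mul_one_sub_eq_one ℤ
  have h2 : (PowerSeries.mk (fun n => ((n ^ 0 : ℕ) : ℤ))) = PowerSeries.mk 1 := by
    ext n
    simp
  rw [h2, zero_add, pow_one]
  exact h

theorem eul_coeff_zero_eq : PowerSeries.coeff 0 (eul 0) = 1 := by
  rw [eul_zero]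
  simp

theorem eul_nonneg (d j : ℕ) : 0 ≤ PowerSeries.coeff j (eul (d + 1)) := by
  have h := coeff_hs_nonneg (⊥ : SimpleGraph (Fin (d + 1))) (by simp) j
  rwa [hs_bot, Fintype.card_fin] at h

theorem eul_pos (d : ℕ) : ∀ j, 1 ≤ j → j ≤ d + 1 → 0 < PowerSeries.coeff j (eul (d + 1)) := by
  induction d with
  | zero =>
    intro j h1 h2
    obtain rfl : j = 1 := by omega
    rw [show (1 : ℕ) = 0 + 1 by rfl, eul_coeff_succ, eul_coeff_zero_eq]
    rw [eul_zero]
    simp [PowerSeries.coeff_one]
  | succ d ih =>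
    intro j h1 h2
    obtain ⟨k, rfl⟩ : ∃ k, j = k + 1 := ⟨j - 1, by omega⟩
    rw [eul_coeff_succ]
    rcases Nat.lt_or_ge k (d + 1) with hk | hk
    · have h3 := ih (k + 1) (by omega) (by omega)
      have h4 := eul_nonneg d k
      have h5 : (0 : ℤ) ≤ ((d + 1 : ℕ) : ℤ) + 1 - k := by
        push_cast
        have : (k : ℤ) < d + 1 := by exact_mod_cast hk
        linarith
      have h6 : (0 : ℤ) < (k : ℤ) + 1 := by positivity
      nlinarith [mul_nonneg h5 h4, mul_pos h6 h3]
    · obtain rfl : k = d + 1 := by omega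
      have h3 := ih (d + 1) (by omega) le_rfl
      have h4 := eul_nonneg d (d + 1 + 1)
      have h5 : (0 : ℤ) < ((d + 1 : ℕ) : ℤ) + 1 - ((d + 1 : ℕ) : ℤ) := by linarith
      have h6 : (0 : ℤ) ≤ ((d + 1 : ℕ) : ℤ) + 1 := by positivity
      nlinarith [mul_nonneg h6 h4, mul_pos h5 h3]

/-- the second symmetric part of the edgeless graph: the Eulerian numbers -/
theorem BB_bot (hV : 0 < Fintype.card V) (i : ℕ) (hi : i + 1 ≤ Fintype.card V) :
    BB (⊥ : SimpleGraph V) i = hc (⊥ : SimpleGraph V) (i + 1) := by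
  have h1 := SS_bot hV i (by omega)
  have h2 := SS_bot hV (i + 1) hi
  rw [SS] at h1 h2
  rw [BB]
  rw [sum_range_succ (fun j => hc (⊥ : SimpleGraph V) j) (i + 1)] at h2
  linarith

theorem BB_pos (hV : 0 < Fintype.card V) (G : SimpleGraph V) (i : ℕ)
    (hi : i + 1 ≤ Fintype.card V) : 0 < BB G i := by
  refine lt_of_lt_of_le ?_ (BB_mono i hi bot_le)
  rw [BB_bot hV i hi]
  unfold hc
  rw [hs_bot]
  obtain ⟨e, he⟩ := Nat.exists_eq_succ_of_ne_zero hV.ne'
  rw [he, Nat.succ_eq_add_one]
  exact eul_pos e (i + 1) (by omega) (by omega)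

/-- the contraction of the only edge -/
theorem contr_single {G : SimpleGraph V} {u v : V} (h : G.deleteEdges {s(u, v)} = ⊥) :
    contr G u v = ⊥ := by
  have key : ∀ x y, G.Adj x y → s(x, y) = s(u, v) := by
    intro x y hxy
    by_contra hne
    have : (G.deleteEdges {s(u, v)}).Adj x y := by
      rw [SimpleGraph.deleteEdges_adj]
      exact ⟨hxy, hne⟩
    rw [h] at this
    exact this
  ext x y
  simp only [SimpleGraph.bot_adj, iff_false]
  rintro ⟨hne, h1 | ⟨h1, h2⟩ | ⟨h1, h2⟩⟩
  · have := key _ _ h1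
    rw [Sym2.eq_iff] at this
    rcases this with ⟨_, h3⟩ | ⟨h3, _⟩
    · exact y.2 h3
    · exact x.2 h3
  · have := key _ _ h2
    rw [Sym2.eq_iff] at this
    rcases this with ⟨_, h3⟩ | ⟨_, h3⟩
    · exact y.2 h3
    · exact hne (Subtype.ext (h1.trans h3.symm))
  · have := key _ _ h2
    rw [Sym2.eq_iff] at this
    rcases this with ⟨h3, _⟩ | ⟨h3, _⟩
    · exact hne (Subtype.ext (h3.trans h1.symm))
    · exact x.2 h3

theorem SS_pos (G : SimpleGraph V) (hG : G ≠ ⊥) (i : ℕ) (h1 : 1 ≤ i) (h2 : i < Fintype.card V) :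
    0 < SS G i := by
  induction G using WellFoundedLT.induction with
  | ind G ih =>
    obtain ⟨u, v, huv⟩ := SimpleGraph.ne_bot_iff_exists_adj.1 hG
    have hpos : 0 < Fintype.card {x : V // x ≠ v} := Fintype.card_pos_iff.2 ⟨⟨u, huv.ne⟩⟩
    have h3 := hc_nonneg (contr G u v) hpos (Fintype.card V - i)
    have h4 := hc_nonneg (contr G u v) hpos i
    rw [SS_del G u v huv i h2.le]
    by_cases hb : G.deleteEdges {s(u, v)} = ⊥
    · rw [contr_single hb] at h3 h4 ⊢
      rw [hb, SS_bot (by omega) i h2.le]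
      have h5 : 0 < hc (⊥ : SimpleGraph {x : V // x ≠ v}) i := by
        unfold hc
        rw [hs_bot]
        have h6 := card_contr (V := V) v
        obtain ⟨e, he⟩ := Nat.exists_eq_succ_of_ne_zero hpos.ne'
        rw [he, Nat.succ_eq_add_one]
        exact eul_pos e i h1 (by omega)
      linarith
    · have h5 := ih _ (del_lt huv) hb
      linarith

/-! ### The complete graph -/

theorem hs_top : hs (⊤ : SimpleGraph V) =
    ((Fintype.card V).factorial : PowerSeries ℤ) * PowerSeries.X ^ (Fintype.card V) := by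
  have h1 : ∀ n, (colo (⊤ : SimpleGraph V) n).card = n.descFactorial (Fintype.card V) := by
    intro n
    rw [← card_coloring]
    have e : (⊤ : SimpleGraph V).Coloring (Fin n) ≃ (V ↪ Fin n) :=
      { toFun := fun C => ⟨fun v => C v, fun x y hxy => by
          by_contra hne
          exact C.valid (show (⊤ : SimpleGraph V).Adj x y from hne) hxy⟩
        invFun := fun f => SimpleGraph.Coloring.mk (fun v => f v) fun {x y} hxy h =>
          hxy (f.injective h)
        left_inv := fun C => rfl
        right_inv := fun f => rfl }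
    rw [Nat.card_congr e, Nat.card_eq_fintype_card, Fintype.card_embedding_eq, Fintype.card_fin]
  have h2 : PowerSeries.mk (fun n => ((colo (⊤ : SimpleGraph V) n).card : ℤ)) =
      ((Fintype.card V).factorial : PowerSeries ℤ) * PowerSeries.X ^ (Fintype.card V) *
        PowerSeries.mk (fun n => ((Nat.choose (Fintype.card V + n) (Fintype.card V) : ℕ) : ℤ)) := by
    ext n
    rw [PowerSeries.coeff_mk, h1, mul_assoc, ← map_natCast (PowerSeries.C (R := ℤ)),
      PowerSeries.coeff_C_mul, PowerSeries.coeff_X_pow_mul']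
    split_ifs with h
    · rw [PowerSeries.coeff_mk, Nat.descFactorial_eq_factorial_mul_choose,
        show Fintype.card V + (n - Fintype.card V) = n by omega]
      push_cast
      ring
    · rw [Nat.descFactorial_eq_zero_iff_lt.2 (by omega)]
      simp
  rw [hs, h2, mul_assoc, PowerSeries.mk_add_choose_mul_one_sub_pow_eq_one, mul_one]

theorem hc_top (i : ℕ) : hc (⊤ : SimpleGraph V) i =
    if i = Fintype.card V then ((Fintype.card V).factorial : ℤ) else 0 := by
  unfold hc
  rw [hs_top, ← map_natCast (PowerSeries.C (R := ℤ)), PowerSeries.coeff_C_mul,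
    PowerSeries.coeff_X_pow]
  split_ifs <;> simp

theorem low_top (i : ℕ) (hi : i < Fintype.card V) :
    ∑ j ∈ range (i + 1), hc (⊤ : SimpleGraph V) j = 0 := by
  refine sum_eq_zero fun j hj => ?_
  rw [mem_range] at hj
  rw [hc_top, if_neg (by omega)]

theorem high_top (i : ℕ) (hi : i < Fintype.card V) :
    ∑ j ∈ range (i + 1), hc (⊤ : SimpleGraph V) (Fintype.card V - j) =
      ((Fintype.card V).factorial : ℤ) := by
  rw [sum_range_succ']
  rw [sum_eq_zero, zero_add, hc_top, if_pos (by omega)]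
  intro j hj
  rw [mem_range] at hj
  rw [hc_top, if_neg (by omega)]

theorem BB_top (i : ℕ) (hi : i < Fintype.card V) :
    BB (⊤ : SimpleGraph V) i = ((Fintype.card V).factorial : ℤ) := by
  rw [BB, low_top i hi, high_top i hi, sub_zero]

theorem SS_top (i : ℕ) (h1 : 1 ≤ i) (hi : i < Fintype.card V) :
    SS (⊤ : SimpleGraph V) i = ((Fintype.card V).factorial : ℤ) := by
  obtain ⟨k, rfl⟩ : ∃ k, i = k + 1 := ⟨i - 1, by omega⟩
  rw [SS, low_top (k + 1) hi, high_top k (by omega), sub_zero]

/-- the extreme partial sums vanish -/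
theorem hc_zero_eq (hV : 0 < Fintype.card V) (G : SimpleGraph V) : hc G 0 = 0 := by
  unfold hc
  rw [hs, PowerSeries.coeff_zero_eq_constantCoeff_apply, map_mul,
    ← PowerSeries.coeff_zero_eq_constantCoeff_apply, PowerSeries.coeff_mk]
  have : colo G 0 = ∅ := by
    rw [eq_empty_iff_forall_notMem]
    intro φ hφ
    obtain ⟨v⟩ := Fintype.card_pos_iff.1 hV
    exact absurd ((mem_colo.1 hφ).1 v) (Nat.not_lt_zero _)
  rw [this]
  simp

/-! ### Strictness and stochastic monotonicity -/

theorem hc_last_pos (hV : 0 < Fintype.card V) (G : SimpleGraph V) :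
    0 < hc G (Fintype.card V) := by
  have h := BB_pos hV G 0 (by omega)
  rw [BB] at h
  simpa [hc_zero_eq hV G] using h

theorem BB_zero_strict {G G' : SimpleGraph V} (h : G ≤ G') (hne : G ≠ G') : BB G 0 < BB G' 0 := by
  obtain ⟨u, v, h1, h2⟩ : ∃ u v, G'.Adj u v ∧ ¬ G.Adj u v := by
    by_contra hcon
    push Not at hcon
    exact hne (le_antisymm h fun u v huv => hcon u v huv)
  have hpos : 0 < Fintype.card {x : V // x ≠ v} := Fintype.card_pos_iff.2 ⟨⟨u, h1.ne⟩⟩
  have hc1 := card_contr (V := V) v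
  have h3 : G ≤ G'.deleteEdges {s(u, v)} := by
    intro x y hxy
    rw [SimpleGraph.deleteEdges_adj]
    refine ⟨h hxy, fun hmem => ?_⟩
    rw [Set.mem_singleton_iff, Sym2.eq_iff] at hmem
    rcases hmem with ⟨rfl, rfl⟩ | ⟨rfl, rfl⟩
    · exact h2 hxy
    · exact h2 hxy.symm
  have h4 := BB_mono 0 (by omega) h3
  have h5 := BB_del G' u v h1 0 (by omega)
  have h6 := hc_last_pos hpos (contr G' u v)
  have h7 := hc_nonneg (contr G' u v) hpos 0
  have h8 : Fintype.card V - 1 - 0 = Fintype.card {x : V // x ≠ v} := by omega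
  rw [h8] at h5
  linarith

/-- adding edges moves the mass of the numerator to the right -/
theorem partial_anti (i : ℕ) {G G' : SimpleGraph V} (h : G ≤ G') :
    ∑ j ∈ range (i + 1), hc G' j ≤ ∑ j ∈ range (i + 1), hc G j := by
  have := mono_of_del (fun G => -∑ j ∈ range (i + 1), hc G j) (fun G u v huv => ?_) h
  · linarith
  · have hpos : 0 < Fintype.card {x : V // x ≠ v} := Fintype.card_pos_iff.2 ⟨⟨u, huv.ne⟩⟩
    have h1 := low_sum G u v huv i
    have h2 := hc_nonneg (contr G u v) hpos i
    linarith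

theorem total_sum (hV : 0 < Fintype.card V) (G : SimpleGraph V) :
    ∑ j ∈ range (Fintype.card V + 1), hc G j = ((Fintype.card V).factorial : ℤ) := by
  have h1 : ∑ j ∈ range (Fintype.card V + 1), hc (⊤ : SimpleGraph V) j =
      ((Fintype.card V).factorial : ℤ) := by
    rw [sum_range_succ, hc_top, if_pos rfl]
    obtain ⟨k, hk⟩ := Nat.exists_eq_succ_of_ne_zero hV.ne'
    have h2 := low_top (V := V) k (by omega)
    have h3 : k + 1 = Fintype.card V := by omega
    rw [h3] at h2
    rw [h2, zero_add]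
  have h2 : ∑ j ∈ range (Fintype.card V + 1), hc G j ≤
      ∑ j ∈ range (Fintype.card V + 1), hc (⊤ : SimpleGraph V) j := by
    refine mono_of_del (fun G => ∑ j ∈ range (Fintype.card V + 1), hc G j)
      (fun G u v huv => ?_) le_top
    have hpos : 0 < Fintype.card {x : V // x ≠ v} := Fintype.card_pos_iff.2 ⟨⟨u, huv.ne⟩⟩
    have hz : hc (contr G u v) (Fintype.card V) = 0 := by
      apply coeff_hs_zero_of_lt _ hpos
      have := card_contr v
      omega
    have h1 := low_sum G u v huv (Fintype.card V)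
    linarith
  have h3 := partial_anti (Fintype.card V) (le_top : G ≤ ⊤)
  linarith

/-! ### Eulerian numbers -/

/-- the Eulerian numbers `A(d, i)`: the number of permutations of `d` letters with `i` descents -/
def eulerian : ℕ → ℕ → ℤ
  | 0, 0 => 1
  | 0, _ + 1 => 0
  | d + 1, 0 => eulerian d 0
  | d + 1, i + 1 => (i + 2) * eulerian d (i + 1) + (d - i) * eulerian d i

theorem eul_eq_eulerian (d : ℕ) : ∀ i, PowerSeries.coeff (i + 1) (eul (d + 1)) =
    eulerian (d + 1) i := by
  induction d with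
  | zero =>
    intro i
    rw [eul_coeff_succ, eul_zero]
    cases i with
    | zero => simp [eulerian, PowerSeries.coeff_one]
    | succ i =>
      cases i with
      | zero => simp [eulerian, PowerSeries.coeff_one]
      | succ i => simp [eulerian, PowerSeries.coeff_one]
  | succ d ih =>
    intro i
    rw [eul_coeff_succ, ih i]
    cases i with
    | zero =>
      rw [eul_zero_coeff (d + 1) (by omega)]
      simp [eulerian]
    | succ i =>
      rw [ih i]
      change _ = ((i : ℤ) + 2) * eulerian (d + 1) (i + 1) +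
        (((d + 1 : ℕ) : ℤ) - i) * eulerian (d + 1) i
      push_cast
      ring

theorem BB_bot_eulerian (hV : 0 < Fintype.card V) (i : ℕ) (hi : i < Fintype.card V) :
    BB (⊥ : SimpleGraph V) i = eulerian (Fintype.card V) i := by
  rw [BB_bot hV i (by omega)]
  unfold hc
  rw [hs_bot]
  obtain ⟨e, he⟩ := Nat.exists_eq_succ_of_ne_zero hV.ne'
  rw [he, Nat.succ_eq_add_one]
  exact eul_eq_eulerian e i

end Pool.Agent.KS6_50.CH
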